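import Mathlib
import Pool.Agent.Q117.S3.Upper

set_option autoImplicit false

namespace Pool.Agent.Results.MP_6d30b5_co.PeriodFails

/-- `s_3(G)`: the number of 3-element vertex sets inducing a connected subgraph. -/
noncomputable def s3 {V : Type} (G : SimpleGraph V) : ℕ :=
  {S : Finset V | S.card = 3 ∧ (G.induce (S : Set V)).Connected}.ncard

/-- `m(n,e)`: the minimum of `s_3(G)` over all graphs `G` with `n` vertices and `e` edges. -/
noncomputable def m (n e : ℕ) : ℕ :=
  sInf {k : ℕ | ∃ (V : Type) (_ : Fintype V) (G : SimpleGraph V),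
    Fintype.card V = n ∧ G.edgeSet.ncard = e ∧ k = s3 G}

/-- The period `P_p`. -/
def P (p : ℕ) : ℕ := (p + 2).choose 2

/-- The increment `D_p`. -/
def D (p : ℕ) : ℕ := p * (p + 1) * (p + 2) / 3

/-- The statement asked for in Q1. -/
def Periodicity : Prop :=
  ∀ p n e : ℕ, e + P p ≤ n.choose 2 → p * n < 2 * e → 2 * (e + P p) < (p + 1) * n →
    (m n (e + P p) : ℤ) - (m n e : ℤ) = (D p : ℤ)

/-- For every `p ≥ 2` the periodicity fails for infinitely many `n`; in particular the statement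
asked for in Q1 is false. -/
theorem result :
    (∀ p c n e : ℕ, 2 ≤ p → n = (p + 2) * (p + 1 + c) + p + 1 →
      e = (p + c) * (p + 2).choose 2 + (p + 1).choose 2 + 1 →
      e + P p ≤ n.choose 2 ∧ p * n < 2 * e ∧ 2 * (e + P p) < (p + 1) * n ∧
        (D p : ℤ) < (m n (e + P p) : ℤ) - (m n e : ℤ)) ∧
    ¬ Periodicity := by
  have main : ∀ p c n e : ℕ, 2 ≤ p → n = (p + 2) * (p + 1 + c) + p + 1 →
      e = (p + c) * (p + 2).choose 2 + (p + 1).choose 2 + 1 →
      e + P p ≤ n.choose 2 ∧ p * n < 2 * e ∧ 2 * (e + P p) < (p + 1) * n ∧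
        (D p : ℤ) < (m n (e + P p) : ℤ) - (m n e : ℤ) := by
    intro p c n e hp hn he
    obtain ⟨h1, h2, h3, h4⟩ := Q117.S3.compare p c hp
    have hn' : n = Q117.S3.nn p c := hn
    have he' : e = Q117.S3.ee p c := he
    subst hn' he'
    refine ⟨h1, h2, h3, ?_⟩
    have h5 : m (Q117.S3.nn p c) (Q117.S3.ee p c) + D p <
        m (Q117.S3.nn p c) (Q117.S3.ee p c + P p) := h4
    omega
  refine ⟨main, ?_⟩
  intro hper
  obtain ⟨h1, h2, h3, h4⟩ := main 2 0 _ _ le_rfl rfl rfl
  exact absurd (hper 2 _ _ h1 h2 h3) (ne_of_gt h4)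

end Pool.Agent.Results.MP_6d30b5_co.PeriodFails
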